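import Mathlib
import Pool.Agent.H41.Unoriented

open Set Filter
open scoped ENNReal Topology

namespace Pool.Agent.Results.MP_c53602_gt.ArcLengthSupport

/-- The Euclidean plane. -/
abbrev Plane : Type := EuclideanSpace ℝ (Fin 2)

/-- `L(t)`: the length of the arc `γ|[a,t]`, i.e. the supremum of the lengths of inscribed
polygons (as an extended nonnegative real). -/
noncomputable def arcLength (γ : ℝ → Plane) (a t : ℝ) : ℝ≥0∞ :=
  eVariationOn γ (Icc a t)

/-- `Φ_t(τ) = det (γ(t) - γ(a), γ(τ))`. -/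
noncomputable def Phi (γ : ℝ → Plane) (a t τ : ℝ) : ℝ :=
  (γ t 0 - γ a 0) * γ τ 1 - (γ t 1 - γ a 1) * γ τ 0

/-- `S(t)`: the set of `τ ∈ (a,t]` such that `γ(τ)` is a support point of the chord
`[γ(a),γ(t)]`: either the chord is degenerate, or `τ` is a (not necessarily strict) local extremum
of `Φ_t` on the whole interval `[a,b]`. -/
def supportSet (γ : ℝ → Plane) (a b t : ℝ) : Set ℝ :=
  {τ | a < τ ∧ τ ≤ t ∧ (γ a = γ t ∨ IsLocalExtrOn (Phi γ a t) (Icc a b) τ)}

/-- planar vectors as complex numbers, relative to the base point `c` -/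
noncomputable def toC (c p : Plane) : ℂ := ⟨p 0 - c 0, p 1 - c 1⟩

lemma norm_toC_sub (c p q : Plane) : ‖toC c p - toC c q‖ = dist p q := by
  rw [EuclideanSpace.dist_eq, Complex.norm_eq_sqrt_sq_add_sq]
  simp only [toC, Fin.sum_univ_two, Complex.sub_re, Complex.sub_im, Real.dist_eq, sq_abs]
  congr 1
  ring

lemma edist_toC (c p q : Plane) : edist (toC c p) (toC c q) = edist p q := by
  rw [edist_dist, edist_dist, dist_eq_norm, norm_toC_sub]

lemma cdet_toC (c p q : Plane) :
    Pool.Agent.H41.cdet (toC c p) (toC c q)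
      = (p 0 - c 0) * q 1 - (p 1 - c 1) * q 0 - ((p 0 - c 0) * c 1 - (p 1 - c 1) * c 0) := by
  simp only [Pool.Agent.H41.cdet, toC]; ring

/-- For every continuous rectifiable planar curve `γ : [a,b] → E²` that is not constant on any
`[a,a+δ]`, `limsup_{t → a+} sup {L(τ) : τ ∈ S(t)} / L(t) ≥ 1/e`. -/
theorem result (a b : ℝ) (hab : a < b) (γ : ℝ → Plane)
    (hcont : ContinuousOn γ (Icc a b))
    (hrect : arcLength γ a b ≠ ⊤)
    (hnc : ∀ δ : ℝ, 0 < δ → ∃ t ∈ Icc a b, t ≤ a + δ ∧ γ t ≠ γ a) :
    ENNReal.ofReal (1 / Real.exp 1) ≤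
      limsup (fun t : ℝ => (⨆ τ ∈ supportSet γ a b t, arcLength γ a τ) / arcLength γ a t)
        (𝓝[>] a) := by
  by_contra hcon
  push Not at hcon
  obtain ⟨c', hc1, hc2⟩ := exists_between hcon
  have hev := eventually_lt_of_limsup_lt hc1
  have hc'top : c' ≠ ⊤ := (hc2.trans ENNReal.ofReal_lt_top).ne
  have hc'pos : 0 < c' := lt_of_le_of_lt bot_le hc1
  set c := c'.toReal with hc
  have hcofReal : c' = ENNReal.ofReal c := (ENNReal.ofReal_toReal hc'top).symm
  have hc0 : 0 < c := ENNReal.toReal_pos hc'pos.ne' hc'top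
  have hcle : c < 1 / Real.exp 1 := by
    rw [hcofReal] at hc2
    exact (ENNReal.ofReal_lt_ofReal_iff (by positivity)).mp hc2
  set K := - Real.log c with hK
  have hK1 : 1 < K := by
    have h1 : Real.log c < Real.log (1 / Real.exp 1) := Real.log_lt_log hc0 hcle
    rw [one_div, Real.log_inv, Real.log_exp] at h1
    linarith
  have hexpK : Real.exp (-K) = c := by rw [hK, neg_neg, Real.exp_log hc0]
  have hc_lt1 : c < 1 := by
    have : 1 / Real.exp 1 < 1 := by
      rw [div_lt_one (Real.exp_pos 1)]; exact Real.one_lt_exp_iff.mpr one_pos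
    linarith
  have hc'lt1 : c' < 1 := by
    rw [hcofReal]
    exact ENNReal.ofReal_lt_one.mpr hc_lt1
  -- choose B
  rw [eventually_nhdsWithin_iff, Metric.eventually_nhds_iff] at hev
  obtain ⟨δ, hδ, hev⟩ := hev
  set B := min (a + δ / 2) ((a + b) / 2) with hB
  have haB : a < B := by
    rw [hB]; apply lt_min <;> linarith
  have hBb : B < b := lt_of_le_of_lt (min_le_right _ _) (by linarith)
  have hratio : ∀ t, a < t → t ≤ B →
      (⨆ τ ∈ supportSet γ a b t, arcLength γ a τ) / arcLength γ a t < c' := by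
    intro t h1 h2
    have h3 : t ≤ a + δ / 2 := h2.trans (min_le_left _ _)
    apply hev _ h1
    rw [Real.dist_eq, abs_of_pos (by linarith)]
    linarith
  -- basic facts about the length
  have hBV : BoundedVariationOn γ (Icc a b) := hrect
  have hLfin : ∀ t, t ≤ b → arcLength γ a t ≠ ⊤ := by
    intro t ht
    exact ne_top_of_le_ne_top hrect (eVariationOn.mono γ (Icc_subset_Icc_right ht))
  have hLpos : ∀ t, a < t → t ≤ b → 0 < arcLength γ a t := by
    intro t h1 h2
    obtain ⟨s, hs1, hs2, hs3⟩ := hnc (t - a) (by linarith)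
    have h4 : edist (γ s) (γ a) ≤ arcLength γ a t :=
      eVariationOn.edist_le γ ⟨hs1.1, by linarith⟩ ⟨le_rfl, h1.le⟩
    exact lt_of_lt_of_le (edist_pos.mpr hs3) h4
  have hLadd : ∀ s t, a ≤ s → s ≤ t →
      arcLength γ a s + eVariationOn γ (Icc s t) = arcLength γ a t := by
    intro s t h1 h2
    have := eVariationOn.Icc_add_Icc γ (s := univ) h1 h2 (mem_univ _)
    simpa [arcLength, univ_inter] using this
  have hsupp : ∀ t, a < t → t ≤ B → ∀ τ ∈ supportSet γ a b t,
      arcLength γ a τ < c' * arcLength γ a t := by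
    intro t h1 h2 τ hτ
    have h3 := hratio t h1 h2
    have h4 : arcLength γ a τ ≤ ⨆ τ ∈ supportSet γ a b t, arcLength γ a τ :=
      le_iSup₂ (f := fun τ (_ : τ ∈ supportSet γ a b t) => arcLength γ a τ) τ hτ
    rw [ENNReal.div_lt_iff (Or.inl (hLpos t h1 (by linarith)).ne')
      (Or.inl (hLfin t (by linarith)))] at h3
    exact lt_of_le_of_lt h4 h3
  have hcmul : ∀ t, a < t → t ≤ b → c' * arcLength γ a t < arcLength γ a t := by
    intro t h1 h2
    calc c' * arcLength γ a t < 1 * arcLength γ a t :=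
          ENNReal.mul_lt_mul_left (hLpos t h1 h2).ne' (hLfin t h2) hc'lt1
      _ = _ := one_mul _
  have hmonoL : ∀ s t, s ≤ t → arcLength γ a s ≤ arcLength γ a t := fun s t hst =>
    eVariationOn.mono γ (Icc_subset_Icc_right hst)
  -- strict monotonicity of the length
  have hstrict : ∀ s t, a ≤ s → s < t → t ≤ B → arcLength γ a s < arcLength γ a t := by
    intro s t h1 h2 h3
    rcases (hmonoL s t h2.le).lt_or_eq with h4 | h4
    · exact h4
    · exfalso
      have h5 := hLadd s t h1 h2.le
      have h6 : eVariationOn γ (Icc s t) = 0 := by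
        rw [← h4] at h5
        have hfin := hLfin s (by linarith)
        have : arcLength γ a s + eVariationOn γ (Icc s t) = arcLength γ a s + 0 := by
          rw [h5, add_zero]
        exact (ENNReal.add_right_inj hfin).mp this
      have h7 : ∀ u ∈ Icc s t, γ u = γ t := by
        intro u hu
        have := (eVariationOn.eq_zero_iff γ).mp h6 u hu t ⟨h2.le, le_rfl⟩
        exact edist_eq_zero.mp this
      set τ := (s + t) / 2 with hτ
      have hmem : τ ∈ supportSet γ a b t := by
        refine ⟨by simp only [hτ]; linarith, by simp only [hτ]; linarith, Or.inr ?_⟩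
        left
        have hn : Icc s t ∈ 𝓝 τ := Icc_mem_nhds (by simp only [hτ]; linarith)
          (by simp only [hτ]; linarith)
        have hn' : Icc s t ∈ 𝓝[Icc a b] τ := mem_nhdsWithin_of_mem_nhds hn
        filter_upwards [hn'] with u hu
        simp only [Phi]
        rw [h7 u hu, h7 τ ⟨by simp only [hτ]; linarith, by simp only [hτ]; linarith⟩]
      have h8 := hsupp t (by linarith) h3 τ hmem
      have h9 := hcmul t (by linarith) (by linarith)
      have h10 := hmonoL s τ (by simp only [hτ]; linarith)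
      rw [h4] at h10
      exact absurd (lt_of_le_of_lt h10 h8) (not_lt.mpr h9.le)
  -- real-valued length function
  set ℓ : ℝ → ℝ := fun t => (arcLength γ a t).toReal with hℓ
  have hℓofReal : ∀ t, t ≤ b → ENNReal.ofReal (ℓ t) = arcLength γ a t := fun t ht =>
    ENNReal.ofReal_toReal (hLfin t ht)
  have hℓstrict : StrictMonoOn ℓ (Icc a B) := by
    intro s hs t ht hst
    simp only [hℓ]
    exact (ENNReal.toReal_lt_toReal (hLfin s (by linarith [hs.2])) (hLfin t (by linarith [ht.2]))).mpr
      (hstrict s t hs.1 hst ht.2)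
  have hℓa : ℓ a = 0 := by
    simp only [hℓ, arcLength]
    rw [eVariationOn.subsingleton γ (by simp)]
    simp
  have hℓdiff : ∀ s t, a ≤ s → s ≤ t → t ≤ b → eVariationOn γ (Icc s t) = ENNReal.ofReal (ℓ t - ℓ s) := by
    intro s t h1 h2 h3
    have h4 := hLadd s t h1 h2
    have h5 : eVariationOn γ (Icc s t) ≠ ⊤ := by
      apply ne_top_of_le_ne_top hrect
      exact eVariationOn.mono γ (Icc_subset_Icc h1 h3)
    have h6 : ℓ s + (eVariationOn γ (Icc s t)).toReal = ℓ t := by
      simp only [hℓ]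
      rw [← ENNReal.toReal_add (hLfin s (by linarith)) h5, h4]
    rw [← h6, add_sub_cancel_left, ENNReal.ofReal_toReal h5]
  -- continuity of the length
  have hℓcont : ContinuousOn ℓ (Icc a B) := by
    have hcontB : ContinuousOn γ (Icc a B) := hcont.mono (Icc_subset_Icc_right hBb.le)
    have hBVB : BoundedVariationOn γ (Icc a B) := hBV.mono (Icc_subset_Icc_right hBb.le)
    intro t ht
    rw [ContinuousWithinAt, Metric.tendsto_nhds]
    intro ε hε
    have hl := hBVB.tendsto_eVariationOn_Icc_zero_left (x := t)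
      ((hcontB t ht).mono inter_subset_left)
    have hr := hBVB.tendsto_eVariationOn_Icc_zero_right t
      ((hcontB t ht).mono inter_subset_left)
    have hl' := hl.eventually_lt_const (ENNReal.ofReal_pos.mpr hε)
    have hr' := hr.eventually_lt_const (ENNReal.ofReal_pos.mpr hε)
    filter_upwards [hl', hr', self_mem_nhdsWithin] with u hu1 hu2 hu3
    rcases le_total u t with h | h
    · have e1 : Icc a B ∩ Icc u t = Icc u t := by
        apply inter_eq_right.mpr
        exact Icc_subset_Icc hu3.1 ht.2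
      rw [e1, hℓdiff u t hu3.1 h (by linarith [ht.2])] at hu1
      have := (ENNReal.ofReal_lt_ofReal_iff hε).mp hu1
      have hm := hℓstrict.monotoneOn hu3 ht h
      rw [Real.dist_eq, abs_sub_comm, abs_of_nonneg (by linarith)]
      exact this
    · have e1 : Icc a B ∩ Icc t u = Icc t u := by
        apply inter_eq_right.mpr
        exact Icc_subset_Icc ht.1 hu3.2
      rw [e1, hℓdiff t u ht.1 h (by linarith [hu3.2])] at hu2
      have := (ENNReal.ofReal_lt_ofReal_iff hε).mp hu2
      have hm := hℓstrict.monotoneOn ht hu3 h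
      rw [Real.dist_eq, abs_of_nonneg (by linarith)]
      exact this
  -- inverse of the length function
  set Λ := ℓ B with hΛ
  have hΛpos : 0 < Λ := by
    have := hℓstrict ⟨le_rfl, haB.le⟩ ⟨haB.le, le_rfl⟩ haB
    rw [hℓa] at this
    exact this
  have hsurj : ∀ x, ∃ t, x ∈ Icc 0 Λ → t ∈ Icc a B ∧ ℓ t = x := by
    intro x
    by_cases hx : x ∈ Icc 0 Λ
    · have := intermediate_value_Icc haB.le hℓcont
      rw [hℓa] at this
      obtain ⟨t, ht1, ht2⟩ := this hx
      exact ⟨t, fun _ => ⟨ht1, ht2⟩⟩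
    · exact ⟨0, fun h => absurd h hx⟩
  choose T hT using hsurj
  have hTmem : ∀ x ∈ Icc 0 Λ, T x ∈ Icc a B := fun x hx => (hT x hx).1
  have hTℓ : ∀ x ∈ Icc 0 Λ, ℓ (T x) = x := fun x hx => (hT x hx).2
  have hTstrict : StrictMonoOn T (Icc 0 Λ) := by
    intro x hx y hy hxy
    by_contra h
    push Not at h
    have := hℓstrict.monotoneOn (hTmem y hy) (hTmem x hx) h
    rw [hTℓ y hy, hTℓ x hx] at this
    linarith
  have hℓT : ∀ t ∈ Icc a B, ℓ t ∈ Icc 0 Λ ∧ T (ℓ t) = t := by
    intro t ht
    have h1 : ℓ t ∈ Icc 0 Λ := by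
      constructor
      · have := hℓstrict.monotoneOn ⟨le_rfl, haB.le⟩ ht ht.1
        rw [hℓa] at this
        exact this
      · exact hℓstrict.monotoneOn ht ⟨haB.le, le_rfl⟩ ht.2
    exact ⟨h1, hℓstrict.injOn (hTmem _ h1) ht (hTℓ _ h1)⟩
  have hT0 : T 0 = a := by
    have h0 : (0 : ℝ) ∈ Icc 0 Λ := ⟨le_rfl, hΛpos.le⟩
    apply hℓstrict.injOn (hTmem 0 h0) ⟨le_rfl, haB.le⟩
    rw [hTℓ 0 h0, hℓa]
  set f : ℝ → ℂ := fun x => toC (γ a) (γ (T x)) with hf
  apply Pool.Agent.H41.unoriented_false K Λ hK1 hΛpos f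
  · -- unit speed
    intro x y hx hxy hy
    have hxm : x ∈ Icc 0 Λ := ⟨hx, by linarith⟩
    have hym : y ∈ Icc 0 Λ := ⟨by linarith, hy⟩
    have e1 : eVariationOn f (Icc x y) = eVariationOn (γ ∘ T) (Icc x y) := by
      simp only [eVariationOn]
      congr 1
      funext p
      apply Finset.sum_congr rfl
      intro i _
      simp only [hf, Function.comp]
      exact edist_toC _ _ _
    have hsub : Icc x y ⊆ Icc 0 Λ := Icc_subset_Icc hx hy
    rw [e1, eVariationOn.comp_eq_of_monotoneOn γ T (hTstrict.monotoneOn.mono hsub)]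
    have e2 : T '' Icc x y = Icc (T x) (T y) := by
      apply Subset.antisymm
      · rintro _ ⟨z, hz, rfl⟩
        exact ⟨hTstrict.monotoneOn hxm (hsub hz) hz.1, hTstrict.monotoneOn (hsub hz) hym hz.2⟩
      · intro t ht
        have htm : t ∈ Icc a B := ⟨(hTmem x hxm).1.trans ht.1, ht.2.trans (hTmem y hym).2⟩
        refine ⟨ℓ t, ⟨?_, ?_⟩, (hℓT t htm).2⟩
        · have := hℓstrict.monotoneOn (hTmem x hxm) htm ht.1
          rw [hTℓ x hxm] at this
          exact this
        · have := hℓstrict.monotoneOn htm (hTmem y hym) ht.2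
          rw [hTℓ y hym] at this
          exact this
    rw [e2, hℓdiff (T x) (T y) (hTmem x hxm).1 (hTstrict.monotoneOn hxm hym hxy)
      (by linarith [(hTmem y hym).2]), hTℓ x hxm, hTℓ y hym]
  · -- f 0 = 0
    simp only [hf, hT0]
    apply Complex.ext <;> simp [toC]
  · -- strict monotonicity
    intro y hy0 hyΛ
    rw [hexpK]
    have hym : y ∈ Icc 0 Λ := ⟨hy0.le, hyΛ⟩
    have hcy0 : 0 < c * y := mul_pos hc0 hy0
    have hcyy : c * y < y := by nlinarith
    have hcym : c * y ∈ Icc 0 Λ := ⟨hcy0.le, by linarith⟩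
    set t := T y with ht
    set s := T (c * y) with hs
    have htm : t ∈ Icc a B := hTmem y hym
    have hsm : s ∈ Icc a B := hTmem _ hcym
    have hst : s < t := hTstrict hcym hym hcyy
    have hat : a < t := by linarith [hsm.1]
    have hno : ∀ z ∈ Ioo s t, ¬ IsLocalExtr (Phi γ a t) z := by
      intro z hz hextr
      have hmem : z ∈ supportSet γ a b t :=
        ⟨by linarith [hsm.1, hz.1], hz.2.le, Or.inr (hextr.on (s := Icc a b))⟩
      have h1 := hsupp t hat htm.2 z hmem
      have h2 := hstrict s z hsm.1 hz.1 (by linarith [hz.2, htm.2])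
      have h3 : arcLength γ a s = c' * arcLength γ a t := by
        rw [← hℓofReal s (by linarith [hsm.2]), ← hℓofReal t (by linarith [htm.2]), hcofReal,
          ← ENNReal.ofReal_mul hc0.le]
        congr 1
        rw [hs, ht, hTℓ _ hcym, hTℓ _ hym]
      rw [h3] at h2
      exact absurd (h1.trans h2) (lt_irrefl _)
    have hsub : Icc s t ⊆ Icc a b := Icc_subset_Icc hsm.1 (by linarith [htm.2])
    have hγ0 : ∀ i : Fin 2, ContinuousOn (fun u => γ u i) (Icc s t) := by
      intro i
      have hproj : Continuous (fun p : Plane => p i) := by fun_prop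
      exact hproj.comp_continuousOn (hcont.mono hsub)
    have hPhicont : ContinuousOn (Phi γ a t) (Icc s t) := by
      unfold Phi
      exact (continuousOn_const.mul (hγ0 1)).sub (continuousOn_const.mul (hγ0 0))
    have hinj : InjOn (Phi γ a t) (Icc s t) := by
      have key : ∀ u ∈ Icc s t, ∀ v ∈ Icc s t, u < v → Phi γ a t u ≠ Phi γ a t v := by
        intro u hu v hv huv heq
        obtain ⟨z, hz1, hz2⟩ := exists_isLocalExtr_Ioo huv
          (hPhicont.mono (Icc_subset_Icc hu.1 hv.2)) heq
        exact hno z ⟨by linarith [hu.1, hz1.1], by linarith [hv.2, hz1.2]⟩ hz2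
      intro u hu v hv heq
      rcases lt_trichotomy u v with h | h | h
      · exact absurd heq (key u hu v hv h)
      · exact h
      · exact absurd heq.symm (key v hv u hu h)
    have hcomp : ∀ x ∈ Icc (c * y) y, Pool.Agent.H41.cdet (f y) (f x)
        = Phi γ a t (T x) - ((γ t 0 - γ a 0) * γ a 1 - (γ t 1 - γ a 1) * γ a 0) := by
      intro x _
      simp only [hf]
      rw [cdet_toC]
      rfl
    have hTI : ∀ x ∈ Icc (c * y) y, x ∈ Icc 0 Λ ∧ T x ∈ Icc s t := by
      intro x hx
      have hx' : x ∈ Icc 0 Λ := ⟨by linarith [hx.1], by linarith [hx.2]⟩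
      exact ⟨hx', hTstrict.monotoneOn hcym hx' hx.1, hTstrict.monotoneOn hx' hym hx.2⟩
    rcases ContinuousOn.strictMonoOn_of_injOn_Icc' hst.le hPhicont hinj with h | h
    · left
      intro u hu v hv huv
      simp only
      rw [hcomp u hu, hcomp v hv]
      have := h (hTI u hu).2 (hTI v hv).2 (hTstrict (hTI u hu).1 (hTI v hv).1 huv)
      linarith
    · right
      intro u hu v hv huv
      simp only
      rw [hcomp u hu, hcomp v hv]
      have := h (hTI u hu).2 (hTI v hv).2 (hTstrict (hTI u hu).1 (hTI v hv).1 huv)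
      linarith

end Pool.Agent.Results.MP_c53602_gt.ArcLengthSupport
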